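import Mathlib

/-!
# A chain of gadgets: 2-degenerate graphs with lists of size 3 which are not flexible

Vertices are natural numbers. For each `i` the nine vertices `8 i, …, 8 i + 8` carry one gadget, and
consecutive gadgets share one vertex. Vertex `b` is joined to `b - 1` and to `b - off b`.
-/

set_option autoImplicit false

namespace Pool.Agent.Flex

/-- The second back-neighbour of vertex `b` is `b - off b`. -/
def off (b : ℕ) : ℕ :=
  if b % 8 = 0 then 2 else if b % 8 = 1 then 1 else if b % 8 = 2 then 2 else if b % 8 = 3 then 2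
  else if b % 8 = 4 then 4 else if b % 8 = 5 then 5 else if b % 8 = 6 then 2 else 7

/-- The list of vertex `b`. -/
def lst (b : ℕ) : Finset ℕ :=
  if b % 8 = 3 ∨ b % 8 = 6 then {1, 2, 3} else if b % 8 = 4 ∨ b % 8 = 5 then {0, 2, 3}
  else {0, 1, 2}

/-- The chain graph on the first `n` natural numbers: for `a < b` the vertices `a` and `b` are
adjacent when `a = b - 1` or `a = b - off b`. -/
def chain (n : ℕ) : SimpleGraph (Fin n) where
  Adj u v := (u.1 < v.1 ∧ (u.1 + 1 = v.1 ∨ u.1 + off v.1 = v.1)) ∨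
    (v.1 < u.1 ∧ (v.1 + 1 = u.1 ∨ v.1 + off u.1 = u.1))
  symm := ⟨fun _ _ h => h.symm⟩
  loopless := ⟨fun _ h => by
    rcases h with h | h
    · exact absurd h.1 (lt_irrefl _)
    · exact absurd h.1 (lt_irrefl _)⟩

theorem lst_card (b : ℕ) : (lst b).card = 3 := by
  unfold lst
  split_ifs <;> rfl

/-- Every non-empty set of vertices contains a vertex with at most two neighbours in the set. -/
theorem chain_degenerate (n : ℕ) (S : Finset (Fin n)) (hS : S.Nonempty) :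
    ∃ v ∈ S, ({u : Fin n | u ∈ S ∧ (chain n).Adj v u}).ncard ≤ 2 := by
  refine ⟨S.max' hS, S.max'_mem hS, ?_⟩
  set v := S.max' hS with hv
  have hsub : {u : Fin n | u ∈ S ∧ (chain n).Adj v u} ⊆
      ({⟨v.1 - 1, by omega⟩, ⟨v.1 - off v.1, by omega⟩} : Set (Fin n)) := by
    rintro u ⟨huS, hadj⟩
    have hle : u ≤ v := S.le_max' u huS
    have hle' : u.1 ≤ v.1 := hle
    simp only [Set.mem_insert_iff, Set.mem_singleton_iff, Fin.ext_iff]
    rcases hadj with h | h
    · omega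
    · rcases h.2 with h2 | h2
      · left; omega
      · right; omega
  calc _ ≤ ({⟨v.1 - 1, by omega⟩, ⟨v.1 - off v.1, by omega⟩} : Set (Fin n)).ncard :=
        Set.ncard_le_ncard hsub (Set.toFinite _)
    _ ≤ 2 := (Set.ncard_insert_le _ _).trans (by rw [Set.ncard_singleton])

/-- The local rules of a list colouring of the chain, for colourings of all natural numbers. -/
def Good (N : ℕ) (ψ : ℕ → ℕ) : Prop :=
  (∀ b < N, ψ b ∈ lst b) ∧ ∀ a b, b < N → a < b → (a + 1 = b ∨ a + off b = b) → ψ a ≠ ψ b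

theorem good_of_coloring {n : ℕ} (φ : Fin n → ℕ) (hL : ∀ v, φ v ∈ lst v.1)
    (hc : ∀ u v, (chain n).Adj u v → φ u ≠ φ v) :
    Good n (fun k => if h : k < n then φ ⟨k, h⟩ else 0) := by
  refine ⟨fun b hb => ?_, fun a b hb hab h => ?_⟩
  · simp only [hb, dif_pos]
    exact hL ⟨b, hb⟩
  · have ha : a < n := by omega
    simp only [hb, ha, dif_pos]
    exact hc _ _ (Or.inl ⟨hab, h⟩)

theorem core1 {p q y : ℕ} (lp : p = 0 ∨ p = 1 ∨ p = 2) (lq : q = 0 ∨ q = 1 ∨ q = 2)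
    (ly : y = 1 ∨ y = 2 ∨ y = 3) (hp : p ≠ 0) (hq : q ≠ 0) (hpq : p ≠ q) (hpy : p ≠ y)
    (hqy : q ≠ y) : y = 3 := by
  omega

theorem core2 {x u s : ℕ} (lx : x = 0 ∨ x = 1 ∨ x = 2) (lu : u = 0 ∨ u = 2 ∨ u = 3)
    (ls : s = 0 ∨ s = 2 ∨ s = 3) (hu : u ≠ 3) (hs : s ≠ 3) (hus : u ≠ s) (hxu : x ≠ u)
    (hxs : x ≠ s) : x = 1 := by
  omega

theorem core3 {u s t v z : ℕ} (ls : s = 0 ∨ s = 2 ∨ s = 3) (lt : t = 1 ∨ t = 2 ∨ t = 3)
    (lv : v = 0 ∨ v = 1 ∨ v = 2) (lz : z = 0 ∨ z = 1 ∨ z = 2) (hu : u = 2) (hs : s ≠ 0)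
    (hus : u ≠ s) (hut : u ≠ t) (hst : s ≠ t) (htv : t ≠ v) (hv : v ≠ 0) (htz : t ≠ z)
    (hvz : v ≠ z) : v ≠ 1 ∧ z = 0 := by
  have hs : s = 3 := by omega
  have ht : t = 1 := by omega
  constructor <;> omega

/-- The case analysis of one gadget. -/
theorem core {x p q y u s t v z : ℕ} (lx : x = 0 ∨ x = 1 ∨ x = 2) (lp : p = 0 ∨ p = 1 ∨ p = 2)
    (lq : q = 0 ∨ q = 1 ∨ q = 2) (ly : y = 1 ∨ y = 2 ∨ y = 3) (lu : u = 0 ∨ u = 2 ∨ u = 3)
    (ls : s = 0 ∨ s = 2 ∨ s = 3) (lt : t = 1 ∨ t = 2 ∨ t = 3) (lv : v = 0 ∨ v = 1 ∨ v = 2)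
    (lz : z = 0 ∨ z = 1 ∨ z = 2)
    (hxp : x ≠ p) (hxq : x ≠ q) (hpq : p ≠ q) (hpy : p ≠ y) (hqy : q ≠ y) (hxu : x ≠ u)
    (hyu : y ≠ u) (hus : u ≠ s) (hxs : x ≠ s) (hut : u ≠ t) (hst : s ≠ t) (htv : t ≠ v)
    (hxv : x ≠ v) (htz : t ≠ z) (hvz : v ≠ z) :
    (x = 0 → v ≠ 1 ∧ z = 0) ∧ (v = 1 → z = 0) := by
  constructor
  · intro hx
    have hy : y = 3 := core1 lp lq ly (hx ▸ hxp.symm) (hx ▸ hxq.symm) hpq hpy hqy
    have hu : u = 2 := by
      clear lp lq ls lt lv lz hxp hxq hpq hpy hqy hus hxs hut hst htv hxv htz hvz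
      omega
    exact core3 ls lt lv lz hu (hx ▸ hxs.symm) hus hut hst htv (hx ▸ hxv.symm) htz hvz
  · intro hv
    have ht : t ≠ 3 := by
      intro ht
      exact hxv ((core2 lx lu ls (ht ▸ hut) (ht ▸ hst) hus hxu hxs).trans hv.symm)
    clear lx lp lq ly lu ls lv hxp hxq hpq hpy hqy hxu hyu hus hxs hut hst hxv
    omega

theorem lst_a {b c : ℕ} (h : c ∈ lst b) (hb : b % 8 = 0 ∨ b % 8 = 1 ∨ b % 8 = 2 ∨ b % 8 = 7) :
    c = 0 ∨ c = 1 ∨ c = 2 := by
  have h1 : ¬ (b % 8 = 3 ∨ b % 8 = 6) := by omega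
  have h2 : ¬ (b % 8 = 4 ∨ b % 8 = 5) := by omega
  simpa [lst, h1, h2] using h

theorem lst_b {b c : ℕ} (h : c ∈ lst b) (hb : b % 8 = 3 ∨ b % 8 = 6) :
    c = 1 ∨ c = 2 ∨ c = 3 := by
  simpa [lst, hb] using h

theorem lst_c {b c : ℕ} (h : c ∈ lst b) (hb : b % 8 = 4 ∨ b % 8 = 5) :
    c = 0 ∨ c = 2 ∨ c = 3 := by
  have h1 : ¬ (b % 8 = 3 ∨ b % 8 = 6) := by omega
  simpa [lst, h1, hb] using h

/-- One gadget. If its first vertex is coloured `0`, then the request fails and the last vertex is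
coloured `0`. If the request holds, then the last vertex is coloured `0`. -/
theorem gadget {N : ℕ} {ψ : ℕ → ℕ} (h : Good N ψ) (i : ℕ) (hi : 8 * i + 8 < N) :
    (ψ (8 * i) = 0 → ψ (8 * i + 7) ≠ 1 ∧ ψ (8 * i + 8) = 0) ∧
    (ψ (8 * i + 7) = 1 → ψ (8 * i + 8) = 0) := by
  obtain ⟨hl, hc⟩ := h
  have hE : ∀ a b, b < N → a < b → (a + 1 = b ∨ a + off b = b) → ψ a ≠ ψ b := hc
  have o2 : off (8 * i + 2) = 2 := by unfold off; split_ifs <;> omega
  have o3 : off (8 * i + 3) = 2 := by unfold off; split_ifs <;> omega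
  have o4 : off (8 * i + 4) = 4 := by unfold off; split_ifs <;> omega
  have o5 : off (8 * i + 5) = 5 := by unfold off; split_ifs <;> omega
  have o6 : off (8 * i + 6) = 2 := by unfold off; split_ifs <;> omega
  have o7 : off (8 * i + 7) = 7 := by unfold off; split_ifs <;> omega
  have o8 : off (8 * i + 8) = 2 := by unfold off; split_ifs <;> omega
  exact core (lst_a (hl (8 * i) (by omega)) (by omega))
    (lst_a (hl (8 * i + 1) (by omega)) (by omega)) (lst_a (hl (8 * i + 2) (by omega)) (by omega))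
    (lst_b (hl (8 * i + 3) (by omega)) (by omega)) (lst_c (hl (8 * i + 4) (by omega)) (by omega))
    (lst_c (hl (8 * i + 5) (by omega)) (by omega)) (lst_b (hl (8 * i + 6) (by omega)) (by omega))
    (lst_a (hl (8 * i + 7) (by omega)) (by omega)) (lst_a (hl (8 * i + 8) (by omega)) (by omega))
    (hE (8 * i) (8 * i + 1) (by omega) (by omega) (Or.inl rfl))
    (hE (8 * i) (8 * i + 2) (by omega) (by omega) (Or.inr (by rw [o2])))
    (hE (8 * i + 1) (8 * i + 2) (by omega) (by omega) (Or.inl rfl))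
    (hE (8 * i + 1) (8 * i + 3) (by omega) (by omega) (Or.inr (by rw [o3])))
    (hE (8 * i + 2) (8 * i + 3) (by omega) (by omega) (Or.inl rfl))
    (hE (8 * i) (8 * i + 4) (by omega) (by omega) (Or.inr (by rw [o4])))
    (hE (8 * i + 3) (8 * i + 4) (by omega) (by omega) (Or.inl rfl))
    (hE (8 * i + 4) (8 * i + 5) (by omega) (by omega) (Or.inl rfl))
    (hE (8 * i) (8 * i + 5) (by omega) (by omega) (Or.inr (by rw [o5])))
    (hE (8 * i + 4) (8 * i + 6) (by omega) (by omega) (Or.inr (by rw [o6])))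
    (hE (8 * i + 5) (8 * i + 6) (by omega) (by omega) (Or.inl rfl))
    (hE (8 * i + 6) (8 * i + 7) (by omega) (by omega) (Or.inl rfl))
    (hE (8 * i) (8 * i + 7) (by omega) (by omega) (Or.inr (by rw [o7])))
    (hE (8 * i + 6) (8 * i + 8) (by omega) (by omega) (Or.inr (by rw [o8])))
    (hE (8 * i + 7) (8 * i + 8) (by omega) (by omega) (Or.inl rfl))

/-- If the first vertex of a gadget is coloured `0`, so is the first vertex of every later one. -/
theorem zero_propagates {N : ℕ} {ψ : ℕ → ℕ} (h : Good N ψ) (i : ℕ) (hi : ψ (8 * i) = 0) (j : ℕ)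
    (hij : i ≤ j) (hj : 8 * j < N) : ψ (8 * j) = 0 := by
  induction j, hij using Nat.le_induction with
  | base => exact hi
  | succ k hk ih =>
    have h1 := ih (by omega)
    exact ((gadget h k (by omega)).1 h1).2

/-- At most one request of the chain is satisfied. -/
theorem at_most_one {N : ℕ} {ψ : ℕ → ℕ} (h : Good N ψ) {i j : ℕ} (hij : i < j)
    (hj : 8 * j + 8 < N) (h1 : ψ (8 * i + 7) = 1) : ψ (8 * j + 7) ≠ 1 := by
  have h2 : ψ (8 * (i + 1)) = 0 := (gadget h i (by omega)).2 h1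
  have h3 := zero_propagates h (i + 1) h2 j (by omega) (by omega)
  exact ((gadget h j hj).1 h3).1

/-- The vertices with a request. -/
def dom (m : ℕ) : Finset (Fin (8 * m + 1)) := Finset.univ.filter fun v => v.1 % 8 = 7

theorem dom_card (m : ℕ) : (dom m).card = m := by
  have h : dom m = (Finset.univ : Finset (Fin m)).map
      ⟨fun i => (⟨8 * i.1 + 7, by omega⟩ : Fin (8 * m + 1)), fun i j hij => by
        simp only [Fin.mk.injEq] at hij
        ext
        omega⟩ := by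
    ext v
    simp only [dom, Finset.mem_filter, Finset.mem_univ, true_and, Finset.mem_map]
    constructor
    · intro hv
      refine ⟨⟨v.1 / 8, by omega⟩, ?_⟩
      apply Fin.ext
      change 8 * (v.1 / 8) + 7 = v.1
      omega
    · rintro ⟨i, rfl⟩
      change (8 * i.1 + 7) % 8 = 7
      omega
  rw [h, Finset.card_map, Finset.card_univ, Fintype.card_fin]

/-- Every list colouring of the chain satisfies at most one request. -/
theorem card_le_one (m : ℕ) (φ : Fin (8 * m + 1) → ℕ) (hL : ∀ v, φ v ∈ lst v.1)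
    (hc : ∀ u v, (chain (8 * m + 1)).Adj u v → φ u ≠ φ v) :
    ((dom m).filter fun v => φ v = 1).card ≤ 1 := by
  have hg := good_of_coloring φ hL hc
  rw [Finset.card_le_one]
  have key : ∀ a b : Fin (8 * m + 1), a.1 % 8 = 7 → b.1 % 8 = 7 → φ a = 1 → φ b = 1 →
      ¬ a.1 < b.1 := by
    intro a b ha hb h1 h2 hab
    have ea : 8 * (a.1 / 8) + 7 = a.1 := by omega
    have eb : 8 * (b.1 / 8) + 7 = b.1 := by omega
    have hlt : a.1 / 8 < b.1 / 8 := by omega
    have hbN : 8 * (b.1 / 8) + 8 < 8 * m + 1 := by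
      have := b.2
      omega
    have h3 : (fun k => if h : k < 8 * m + 1 then φ ⟨k, h⟩ else 0) (8 * (a.1 / 8) + 7) = 1 := by
      simp only [ea, a.2, dif_pos]
      exact h1
    have h4 := at_most_one hg hlt hbN h3
    apply h4
    simp only [eb, b.2, dif_pos]
    exact h2
  intro a ha b hb
  simp only [dom, Finset.mem_filter, Finset.mem_univ, true_and] at ha hb
  have k1 := key a b ha.1 hb.1 ha.2 hb.2
  have k2 := key b a hb.1 ha.1 hb.2 ha.2
  ext
  omega

end Pool.Agent.Flex
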