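import Mathlib

/-!
# Amplifier gadget for list colourings of 2-degenerate graphs with lists of size 3

Vertices: the root `none`, and for every finite bool-string `t` (a node of the binary tree)
seven vertices `some (t, i)`, `i : Fin 7`.  The gadget of the node `t` is attached to the
vertex `inp t`.
-/

set_option autoImplicit false

namespace Pool.Agent.Flex

/-- all vertices of the infinite gadget tree -/
abbrev W := Option (List Bool × Fin 7)

/-- the vertex the gadget of node `t` hangs on -/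
def inp : List Bool → W
  | [] => none
  | false :: t => some (t, 4)
  | true :: t => some (t, 6)

/-- back-neighbours of a vertex -/
def par : W → Finset W
  | none => ∅
  | some (t, 0) => {inp t}
  | some (t, 1) => {inp t, some (t, 0)}
  | some (t, 2) => {some (t, 0), some (t, 1)}
  | some (t, 3) => {inp t, some (t, 2)}
  | some (t, 4) => {some (t, 3), inp t}
  | some (t, 5) => {some (t, 2), some (t, 3)}
  | some (t, 6) => {some (t, 3), some (t, 5)}

/-- rank function certifying 2-degeneracy -/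
def rank : W → ℕ
  | none => 0
  | some (t, i) => 8 * t.length + i.val + 1

theorem rank_inp_lt (t : List Bool) (i : Fin 7) : rank (inp t) < rank (some (t, i)) := by
  rcases t with _ | ⟨b, t⟩
  · simp [inp, rank]
  · cases b
    · simp [inp, rank]; omega
    · simp [inp, rank]; omega

theorem rank_lt_of_mem_par {x y : W} (h : x ∈ par y) : rank x < rank y := by
  rcases y with _ | ⟨t, i⟩
  · simp [par] at h
  · have hi := rank_inp_lt t i
    fin_cases i <;> simp only [par, Finset.mem_insert, Finset.mem_singleton, Fin.zero_eta, Fin.mk_one,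
      Fin.reduceFinMk] at h hi
    · subst h; exact hi
    · rcases h with h | h
      · subst h; exact hi
      · subst h; simp [rank]
    · rcases h with h | h <;> subst h <;> simp [rank]
    · rcases h with h | h
      · subst h; exact hi
      · subst h; simp [rank]
    · rcases h with h | h
      · subst h; simp [rank]
      · subst h; exact hi
    · rcases h with h | h <;> subst h <;> simp [rank]
    · rcases h with h | h <;> subst h <;> simp [rank]

theorem card_par_le (y : W) : (par y).card ≤ 2 := by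
  rcases y with _ | ⟨t, i⟩
  · simp [par]
  · fin_cases i
    · simp [par]
    all_goals exact Finset.card_le_two

/-- colour permutations attached to the nodes -/
def tau : Bool → Equiv.Perm (Fin 4)
  | false => Equiv.swap 0 2
  | true => Equiv.swap 0 1 * Equiv.swap 2 3

def sig : List Bool → Equiv.Perm (Fin 4)
  | [] => 1
  | b :: t => sig t * tau b

/-- base lists of the seven gadget vertices -/
def base : Fin 7 → Finset (Fin 4)
  | 0 => {1, 2, 3}
  | 1 => {1, 2, 3}
  | 2 => {0, 2, 3}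
  | 3 => {0, 1, 2}
  | 4 => {0, 1, 2}
  | 5 => {0, 1, 2}
  | 6 => {0, 1, 3}

/-- the lists with values in `Fin 4` -/
def lst : W → Finset (Fin 4)
  | none => {0, 1, 2}
  | some (t, i) => (base i).map (sig t).toEmbedding

theorem card_lst (x : W) : (lst x).card = 3 := by
  rcases x with _ | ⟨t, i⟩
  · rfl
  · simp only [lst, Finset.card_map]
    fin_cases i <;> rfl

theorem mem_lst_inp {t : List Bool} {c : Fin 4} (h : c ∈ lst (inp t)) :
    ∃ a : Fin 4, a ≠ 3 ∧ c = sig t a := by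
  rcases t with _ | ⟨b, t⟩
  · refine ⟨c, ?_, by simp [sig]⟩
    intro hc; subst hc; revert h; decide
  · cases b
    · simp only [inp, lst, Finset.mem_map, Equiv.coe_toEmbedding] at h
      obtain ⟨a, ha, rfl⟩ := h
      refine ⟨(tau false).symm a, ?_, by simp [sig]⟩
      revert ha; revert a; decide
    · simp only [inp, lst, Finset.mem_map, Equiv.coe_toEmbedding] at h
      obtain ⟨a, ha, rfl⟩ := h
      refine ⟨(tau true).symm a, ?_, by simp [sig]⟩
      revert ha; revert a; decide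

theorem gadget1 : ∀ c0 : Fin 4, c0 ≠ 3 → ∀ c1 : Fin 4, c1 ∈ base 0 → c1 ≠ c0 →
    ∀ c2 : Fin 4, c2 ∈ base 1 → c2 ≠ c0 → c2 ≠ c1 →
    ∀ c3 : Fin 4, c3 ∈ base 2 → c3 ≠ c1 → c3 ≠ c2 →
    c0 = 0 ∨ (c0 = 1 ∧ c3 = 0) ∨ (c0 = 2 ∧ (c3 = 0 ∨ c3 = 2)) := by
  decide

theorem gadget2 : ∀ c0 c3 : Fin 4,
    (c0 = 0 ∨ (c0 = 1 ∧ c3 = 0) ∨ (c0 = 2 ∧ (c3 = 0 ∨ c3 = 2))) →
    ∀ c4 : Fin 4, c4 ∈ base 3 → c4 ≠ c0 → c4 ≠ c3 →
    ∀ c5 : Fin 4, c5 ∈ base 4 → c5 ≠ c4 → c5 ≠ c0 →
    (c5 = 2 → c0 = 0 ∧ c4 = 1) := by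
  decide

theorem gadget3 : ∀ c0 c3 : Fin 4,
    (c0 = 0 ∨ (c0 = 1 ∧ c3 = 0) ∨ (c0 = 2 ∧ (c3 = 0 ∨ c3 = 2))) →
    ∀ c4 : Fin 4, c4 ∈ base 3 → c4 ≠ c0 → c4 ≠ c3 →
    ∀ c6 : Fin 4, c6 ∈ base 5 → c6 ≠ c3 → c6 ≠ c4 →
    ∀ c7 : Fin 4, c7 ∈ base 6 → c7 ≠ c4 → c7 ≠ c6 →
    (c7 = 1 → c0 = 0 ∧ c4 ≠ 1) := by
  decide

/-- the finite heart of the construction -/
theorem gadget (c0 : Fin 4) (h0 : c0 ≠ 3) (c1 : Fin 4) (h1 : c1 ∈ base 0) (h10 : c1 ≠ c0)
    (c2 : Fin 4) (h2 : c2 ∈ base 1) (h20 : c2 ≠ c0) (h21 : c2 ≠ c1)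
    (c3 : Fin 4) (h3 : c3 ∈ base 2) (h31 : c3 ≠ c1) (h32 : c3 ≠ c2)
    (c4 : Fin 4) (h4 : c4 ∈ base 3) (h40 : c4 ≠ c0) (h43 : c4 ≠ c3)
    (c5 : Fin 4) (h5 : c5 ∈ base 4) (h54 : c5 ≠ c4) (h50 : c5 ≠ c0)
    (c6 : Fin 4) (h6 : c6 ∈ base 5) (h63 : c6 ≠ c3) (h64 : c6 ≠ c4)
    (c7 : Fin 4) (h7 : c7 ∈ base 6) (h74 : c7 ≠ c4) (h76 : c7 ≠ c6) :
    (c5 = 2 → c0 = 0) ∧ (c7 = 1 → c0 = 0) ∧ ¬ (c5 = 2 ∧ c7 = 1) := by
  have r := gadget1 c0 h0 c1 h1 h10 c2 h2 h20 h21 c3 h3 h31 h32
  have a := gadget2 c0 c3 r c4 h4 h40 h43 c5 h5 h54 h50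
  have b := gadget3 c0 c3 r c4 h4 h40 h43 c6 h6 h63 h64 c7 h7 h74 h76
  exact ⟨fun h => (a h).1, fun h => (b h).1, fun h => (b h.2).2 (a h.1).2⟩

/-- A colouring of the vertices at depth less than `k`. -/
structure IsCol (k : ℕ) (f : W → Fin 4) : Prop where
  root : f none ∈ lst none
  mem : ∀ (t : List Bool) (i : Fin 7), t.length < k → f (some (t, i)) ∈ lst (some (t, i))
  ne : ∀ (t : List Bool) (i : Fin 7), t.length < k → ∀ x ∈ par (some (t, i)), f x ≠ f (some (t, i))

theorem IsCol.inp_mem {k : ℕ} {f : W → Fin 4} (h : IsCol k f) {t : List Bool} (ht : t.length ≤ k) :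
    f (inp t) ∈ lst (inp t) := by
  rcases t with _ | ⟨b, t⟩
  · exact h.root
  · have : t.length < k := by simpa using ht
    cases b
    · exact h.mem t 4 this
    · exact h.mem t 6 this

theorem IsCol.step {k : ℕ} {f : W → Fin 4} (h : IsCol k f) {t : List Bool} (ht : t.length < k) :
    (∀ b, f (inp (b :: t)) = sig (b :: t) 0 → f (inp t) = sig t 0) ∧
    ¬ (f (inp (false :: t)) = sig (false :: t) 0 ∧ f (inp (true :: t)) = sig (true :: t) 0) := by
  obtain ⟨c0, hc0, h0⟩ := mem_lst_inp (h.inp_mem ht.le)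
  have key : ∀ i : Fin 7, ∃ c, c ∈ base i ∧ f (some (t, i)) = sig t c := by
    intro i
    have := h.mem t i ht
    simp only [lst, Finset.mem_map, Equiv.coe_toEmbedding] at this
    obtain ⟨a, ha, hh⟩ := this
    exact ⟨a, ha, hh.symm⟩
  choose c hc hfc using key
  have hne := fun i => h.ne t i ht
  have n0 := hne 0; have n1 := hne 1; have n2 := hne 2; have n3 := hne 3
  have n4 := hne 4; have n5 := hne 5; have n6 := hne 6
  simp only [par, Finset.mem_insert, Finset.mem_singleton, forall_eq_or_imp, forall_eq, hfc, h0, ne_eq,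
    EmbeddingLike.apply_eq_iff_eq] at n0 n1 n2 n3 n4 n5 n6
  have g := gadget c0 hc0 (c 0) (hc 0) (Ne.symm n0) (c 1) (hc 1) (Ne.symm n1.1) (Ne.symm n1.2)
    (c 2) (hc 2) (Ne.symm n2.1) (Ne.symm n2.2) (c 3) (hc 3) (Ne.symm n3.1) (Ne.symm n3.2)
    (c 4) (hc 4) (Ne.symm n4.1) (Ne.symm n4.2) (c 5) (hc 5) (Ne.symm n5.1) (Ne.symm n5.2)
    (c 6) (hc 6) (Ne.symm n6.1) (Ne.symm n6.2)
  have t1 : sig (false :: t) 0 = sig t 2 := by simp [sig, tau]
  have t2 : sig (true :: t) 0 = sig t 1 := by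
    have : tau true 0 = 1 := by decide
    simp [sig, this]
  have i1 : inp (false :: t) = some (t, 4) := rfl
  have i2 : inp (true :: t) = some (t, 6) := rfl
  rw [t1, t2, i1, i2, hfc, hfc]
  constructor
  · intro b hb
    rw [h0]
    cases b
    · rw [t1, i1, hfc] at hb
      rw [g.1 ((sig t).injective hb)]
    · rw [t2, i2, hfc] at hb
      rw [g.2.1 ((sig t).injective hb)]
  · rintro ⟨a1, a2⟩
    exact g.2.2 ⟨(sig t).injective a1, (sig t).injective a2⟩

/-- at most one node of length `n ≤ k` is satisfied -/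
theorem IsCol.unique {k : ℕ} {f : W → Fin 4} (h : IsCol k f) :
    ∀ (s s' : List Bool), s.length = s'.length → s.length ≤ k →
      f (inp s) = sig s 0 → f (inp s') = sig s' 0 → s = s' := by
  intro s
  induction s with
  | nil =>
    intro s' hs _ _ _
    exact (List.length_eq_zero_iff.mp hs.symm).symm
  | cons b t ih =>
    intro s' hs hk h1 h2
    rcases s' with _ | ⟨b', t'⟩
    · simp at hs
    · have hl : t.length = t'.length := by simpa using hs
      have hk1 : t.length < k := by simpa using hk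
      have hk2 : t'.length < k := by omega
      have e1 := (h.step hk1).1 b h1
      have e2 := (h.step hk2).1 b' h2
      have e3 := ih t' hl hk1.le e1 e2
      subst e3
      have e4 := (h.step hk1).2
      cases b <;> cases b'
      · rfl
      · exact absurd ⟨h1, h2⟩ e4
      · exact absurd ⟨h2, h1⟩ e4
      · rfl

end Pool.Agent.Flex
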