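import Pool.Agent.Flex.Core

set_option autoImplicit false

namespace Pool.Agent.Flex

theorem inp_injective : Function.Injective inp := by
  intro s s' h
  rcases s with _ | ⟨b, t⟩ <;> rcases s' with _ | ⟨b', t'⟩
  · rfl
  · cases b' <;> simp [inp] at h
  · cases b <;> simp [inp] at h
  · cases b <;> cases b' <;> simp_all [inp]

/-- the requested colour at `inp s` -/
def req : W → Fin 4
  | none => 0
  | some (t, 4) => sig (false :: t) 0
  | some (t, 6) => sig (true :: t) 0
  | some (_, _) => 0

theorem req_inp (s : List Bool) : req (inp s) = sig s 0 := by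
  rcases s with _ | ⟨b, t⟩
  · simp [inp, req, sig]
  · cases b <;> simp [inp, req]

theorem req_mem (s : List Bool) : sig s 0 ∈ lst (inp s) := by
  rcases s with _ | ⟨b, t⟩
  · simp [inp, lst, sig]
  · cases b
    · have : tau false 0 ∈ base 4 := by decide
      simpa [inp, lst, sig] using this
    · have : tau true 0 ∈ base 6 := by decide
      simpa [inp, lst, sig] using this

/-- vertices of depth less than `k` -/
def good (k : ℕ) : Set W := {x | ∀ t i, x = some (t, i) → t.length < k}

theorem good_finite (k : ℕ) : (good k).Finite := by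
  have h1 : ((fun p : List Bool × Fin 7 => (some p : W)) ''
      ({l : List Bool | l.length < k} ×ˢ (Set.univ : Set (Fin 7)))).Finite :=
    ((List.finite_length_lt Bool k).prod Set.finite_univ).image _
  refine (h1.union (Set.finite_singleton (none : W))).subset ?_
  intro x hx
  rcases x with _ | ⟨t, i⟩
  · right; rfl
  · left
    exact ⟨(t, i), ⟨hx t i rfl, Set.mem_univ _⟩, rfl⟩

theorem inp_good {k : ℕ} {s : List Bool} (hs : s.length ≤ k) : inp s ∈ good k := by
  intro t i h
  rcases s with _ | ⟨b, t'⟩
  · simp [inp] at h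
  · cases b <;> simp only [inp, Option.some.injEq, Prod.mk.injEq] at h <;>
      obtain ⟨rfl, _⟩ := h <;> simpa using hs

theorem par_good {k : ℕ} {x y : W} (hy : y ∈ good k) (h : x ∈ par y) : x ∈ good k := by
  rcases y with _ | ⟨t, i⟩
  · simp [par] at h
  · have ht : t.length < k := hy t i rfl
    have hin : inp t ∈ good k := inp_good ht.le
    have hso : ∀ j : Fin 7, (some (t, j) : W) ∈ good k := by
      intro j t' i' he
      simp only [Option.some.injEq, Prod.mk.injEq] at he
      obtain ⟨rfl, _⟩ := he
      exact ht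
    fin_cases i <;> simp only [par, Finset.mem_insert, Finset.mem_singleton, Fin.zero_eta,
      Fin.mk_one, Fin.reduceFinMk] at h
    · subst h; exact hin
    · rcases h with h | h
      · subst h; exact hin
      · subst h; exact hso _
    · rcases h with h | h <;> subst h <;> exact hso _
    · rcases h with h | h
      · subst h; exact hin
      · subst h; exact hso _
    · rcases h with h | h
      · subst h; exact hso _
      · subst h; exact hin
    · rcases h with h | h <;> subst h <;> exact hso _
    · rcases h with h | h <;> subst h <;> exact hso _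

/-- the finite graph of depth `k` -/
def gr (k : ℕ) : SimpleGraph (good k) :=
  SimpleGraph.fromRel (fun x y => x.1 ∈ par y.1)

theorem gr_degenerate (k : ℕ) (S : Finset (good k)) (hS : S.Nonempty) :
    ∃ v ∈ S, ({u : good k | u ∈ S ∧ (gr k).Adj v u}).ncard ≤ 2 := by
  obtain ⟨v, hv, hmax⟩ := Finset.exists_max_image S (fun x => rank x.1) hS
  refine ⟨v, hv, ?_⟩
  have hsub : Subtype.val '' {u : good k | u ∈ S ∧ (gr k).Adj v u} ⊆ (par v.1 : Set W) := by
    rintro _ ⟨u, ⟨hu, hadj⟩, rfl⟩
    rw [gr, SimpleGraph.fromRel_adj] at hadj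
    rcases hadj.2 with h | h
    · have h1 := rank_lt_of_mem_par h
      have h2 := hmax u hu
      omega
    · exact h
  calc ({u : good k | u ∈ S ∧ (gr k).Adj v u}).ncard
      = (Subtype.val '' {u : good k | u ∈ S ∧ (gr k).Adj v u}).ncard :=
        (Set.ncard_image_of_injective _ Subtype.val_injective).symm
    _ ≤ (par v.1 : Set W).ncard := Set.ncard_le_ncard hsub (Finset.finite_toSet _)
    _ = (par v.1).card := Set.ncard_coe_finset _
    _ ≤ 2 := card_par_le _

/-- the lists -/
def lists (k : ℕ) (v : good k) : Finset ℕ := (lst v.1).map Fin.valEmbedding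

theorem card_lists (k : ℕ) (v : good k) : (lists k v).card = 3 := by
  simp [lists, card_lst]

theorem at_most_one (k : ℕ) (φ : good k → ℕ) (hφ : ∀ v, φ v ∈ lists k v)
    (hadj : ∀ u v, (gr k).Adj u v → φ u ≠ φ v)
    (s s' : List Bool) (hs : s.length = k) (hs' : s'.length = k)
    (h1 : φ ⟨inp s, inp_good hs.le⟩ = (sig s 0).val)
    (h2 : φ ⟨inp s', inp_good hs'.le⟩ = (sig s' 0).val) : s = s' := by
  classical
  have key : ∀ v : good k, ∃ c : Fin 4, c ∈ lst v.1 ∧ c.val = φ v := by
    intro v
    have := hφ v
    simp only [lists, Finset.mem_map, Fin.valEmbedding_apply] at this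
    exact this
  choose g hg hgv using key
  let f : W → Fin 4 := fun x => if h : x ∈ good k then g ⟨x, h⟩ else 0
  have hf : ∀ (x : W) (h : x ∈ good k), f x = g ⟨x, h⟩ := fun x h => by simp [f, h]
  have hgood : ∀ (t : List Bool) (i : Fin 7), t.length < k → (some (t, i) : W) ∈ good k := by
    intro t i ht t' i' he
    simp only [Option.some.injEq, Prod.mk.injEq] at he
    obtain ⟨rfl, _⟩ := he
    exact ht
  have hcol : IsCol k f := by
    refine ⟨?_, ?_, ?_⟩
    · have hn : (none : W) ∈ good k := inp_good (s := []) (Nat.zero_le _)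
      rw [hf _ hn]; exact hg ⟨none, hn⟩
    · intro t i ht
      rw [hf _ (hgood t i ht)]
      exact hg ⟨_, hgood t i ht⟩
    · intro t i ht x hx
      have hy := hgood t i ht
      have hxg := par_good hy hx
      rw [hf _ hy, hf _ hxg]
      intro he
      have hne : (⟨x, hxg⟩ : good k) ≠ ⟨some (t, i), hy⟩ := by
        intro hh
        have h3 : x = some (t, i) := congrArg Subtype.val hh
        have h4 := rank_lt_of_mem_par hx
        rw [h3] at h4
        exact lt_irrefl _ h4
      refine hadj ⟨x, hxg⟩ ⟨some (t, i), hy⟩ ?_ ?_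
      · rw [gr, SimpleGraph.fromRel_adj]
        exact ⟨hne, Or.inl hx⟩
      · rw [← hgv, ← hgv, he]
  refine hcol.unique s s' (by omega) hs.le ?_ ?_
  · rw [hf _ (inp_good hs.le)]
    apply Fin.ext
    rw [hgv, h1]
  · rw [hf _ (inp_good hs'.le)]
    apply Fin.ext
    rw [hgv, h2]

/-- **Main construction.**  For every `k` there are a finite 2-degenerate graph with lists of
size 3 and a request with domain of size `2 ^ k` such that no list colouring satisfies more than
one of the requests. -/
theorem main (k : ℕ) :
    ∃ (V : Type) (_ : Fintype V) (G : SimpleGraph V) (L : V → Finset ℕ) (D : Finset V)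
      (r : V → ℕ),
      (∀ S : Finset V, S.Nonempty → ∃ v ∈ S, ({u : V | u ∈ S ∧ G.Adj v u}).ncard ≤ 2) ∧
      (∀ v, (L v).card = 3) ∧ D.card = 2 ^ k ∧ (∀ v ∈ D, r v ∈ L v) ∧
      ∀ φ : V → ℕ, (∀ v, φ v ∈ L v) → (∀ u v, G.Adj u v → φ u ≠ φ v) →
        (D.filter (fun v => φ v = r v)).card ≤ 1 := by
  classical
  letI : Fintype (good k) := (good_finite k).fintype
  let e : (Fin k → Bool) ↪ good k :=
    ⟨fun s => ⟨inp (List.ofFn s), inp_good (by simp)⟩, by
      intro s s' h
      have h1 : inp (List.ofFn s) = inp (List.ofFn s') := congrArg Subtype.val h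
      exact List.ofFn_injective (inp_injective h1)⟩
  refine ⟨good k, inferInstance, gr k, lists k, Finset.univ.map e, fun v => (req v.1).val,
    gr_degenerate k, card_lists k, by simp, ?_, ?_⟩
  · intro v hv
    simp only [Finset.mem_map, Finset.mem_univ, true_and] at hv
    obtain ⟨s, rfl⟩ := hv
    have : req (inp (List.ofFn s)) ∈ lst (inp (List.ofFn s)) := by
      rw [req_inp]; exact req_mem _
    exact Finset.mem_map_of_mem Fin.valEmbedding this
  · intro φ hφ hadj
    rw [Finset.card_le_one]
    intro a ha b hb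
    simp only [Finset.mem_filter, Finset.mem_map, Finset.mem_univ, true_and] at ha hb
    obtain ⟨⟨s, rfl⟩, ha⟩ := ha
    obtain ⟨⟨s', rfl⟩, hb⟩ := hb
    have ha' : φ ⟨inp (List.ofFn s), inp_good (by simp)⟩ = (sig (List.ofFn s) 0).val := by
      rw [← req_inp]; exact ha
    have hb' : φ ⟨inp (List.ofFn s'), inp_good (by simp)⟩ = (sig (List.ofFn s') 0).val := by
      rw [← req_inp]; exact hb
    have := at_most_one k φ hφ hadj (List.ofFn s) (List.ofFn s') (by simp) (by simp) ha' hb'
    rw [List.ofFn_injective this]

end Pool.Agent.Flex
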